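import Pool.Agent.V5helper49.LR.Pre
import Pool.Agent.V5helper74.LRA.C
import Pool.Agent.V5helper3.LR.GAPP

/-! Project LR: all jobs. -/

set_option autoImplicit false

namespace Pool.Agent.V5helper49.LR

open Finset MeasureTheory ProbabilityTheory Filter Topology
open scoped ENNReal
open Pool.Agent.V5helper42.RS (EE S PP W model)

universe u

theorem main_prb : S_PRB.{u} := h_PRB Pool.Agent.V5helper74.LRA.t_AVG

theorem main_runs {Ω : Type u} [MeasurableSpace Ω] (μ : Measure Ω)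
    [IsProbabilityMeasure μ] (a : ℕ → Ω → ℕ) (hm : ∀ p, Measurable (a p)) (hi : iIndepFun a μ)
    (hu : ∀ p : ℕ, p.Prime → ∀ r < p, μ {ω | a p ω = r} = (p : ℝ≥0∞)⁻¹) :
    ∀ᵐ ω ∂μ, (∀ ε : ℝ, 0 < ε → ∀ᶠ x : ℝ in atTop,
        (∃ k n d : ℕ, (2 - ε) * Real.log (Real.log x) ≤ k ∧ Run (model fun p => a p ω) k n d ∧
          ((n + (k - 1) * d : ℕ) : ℝ) ≤ x) ∧
        ∀ k n d : ℕ, Run (model fun p => a p ω) k n d → ((n + (k - 1) * d : ℕ) : ℝ) ≤ x →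
          (k : ℝ) ≤ (2 + ε) * Real.log (Real.log x)) ∧
      ∀ k N : ℕ, ∃ n d : ℕ, N ≤ n ∧ Run (model fun p => a p ω) k n d :=
  fin_runs (h_LOW Pool.Agent.V5helper74.LRA.t_AVG)
    (h_GAP (Pool.Agent.V5helper3.LR.t_GAPP Pool.Agent.V5helper61.LR.t_LS Pool.Agent.V5helper34.LR.t_EMP))
    Pool.Agent.V5helper23.LR.t_RUNU μ a hm hi hu

theorem main_pat {Ω : Type u} [MeasurableSpace Ω] (μ : Measure Ω)
    [IsProbabilityMeasure μ] (a : ℕ → Ω → ℕ) (hm : ∀ p, Measurable (a p)) (hi : iIndepFun a μ)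
    (hu : ∀ p : ℕ, p.Prime → ∀ r < p, μ {ω | a p ω = r} = (p : ℝ≥0∞)⁻¹) :
    ∀ᵐ ω ∂μ, ∀ (H : ℕ) (T : Finset ℕ), T ⊆ range (H + 1) → (∀ p : ℕ, p.Prime → ∃ b < p, ∀ t ∈ T, t % p ≠ b) →
      ∀ N : ℕ, ∃ n : ℕ, N ≤ n ∧ Ex (model fun p => a p ω) n H T :=
  fin_pat main_prb μ a hm hi hu

end Pool.Agent.V5helper49.LR
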