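import Pool.Agent.V5helper49.LR.Stm3
import Pool.Agent.V5helper74.LRA.B

set_option autoImplicit false

namespace Pool.Agent.V5helper49.LR

open Finset Filter
open Pool.Agent.V5helper74.LRA (sumsq Bad bad_of_col ov_bad ff cc_nonneg cc_le card_pf exp_le)

/-- the large primes (adapted from `V5helper74.LRA.big`) -/
theorem cor_gen (F B : Finset ℕ) (w X H D : ℕ) (T : Finset ℕ) (L : ℝ) (hL : L = Real.log X) (hL1 : 1 ≤ L)
    (hw1 : 0 < w) (hFm : ∀ p ∈ F, w < p ∧ p.Prime)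
    (hH : (H : ℝ) + 1 ≤ 2 * L ^ 2) (hT : T ⊆ range (H + 1)) (hD : H < D) (hDX : D + H ≤ 2 * X) :
    ∏ p ∈ F, (1 + cc T B H D p) ≤ Real.exp (800 * L ^ 7 / w) := by
  classical
  have hL0 : 0 < L := by linarith
  have hw0 : (0 : ℝ) < w := by exact_mod_cast hw1
  have hle : ∏ p ∈ F, (1 + cc T B H D p) ≤ Real.exp (∑ p ∈ F, ff H D p) := by
    rw [Real.exp_sum]
    refine Finset.prod_le_prod (fun p _ => by linarith [cc_nonneg T B H D p]) fun p _ => ?_
    have h1 := Real.add_one_le_exp (ff H D p)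
    have h2 := cc_le T B H D p hT hD
    linarith
  refine hle.trans (Real.exp_le_exp.2 ?_)
  unfold ff
  rw [Finset.sum_add_distrib]
  have hb1 : ∑ p ∈ F, 8 * ((H : ℝ) + 1) ^ 2 / (p : ℝ) ^ 2 ≤ 8 * ((H : ℝ) + 1) ^ 2 / w := by
    have h1 := sumsq F w hw1 fun p hp => (hFm p hp).1
    have h2 : ∑ p ∈ F, 8 * ((H : ℝ) + 1) ^ 2 / (p : ℝ) ^ 2 = 8 * ((H : ℝ) + 1) ^ 2 * ∑ p ∈ F, 1 / (p : ℝ) ^ 2 := by
      rw [Finset.mul_sum]
      exact Finset.sum_congr rfl fun p _ => by ring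
    rw [h2, div_eq_mul_one_div (8 * ((H : ℝ) + 1) ^ 2) (w : ℝ)]
    exact mul_le_mul_of_nonneg_left h1 (by positivity)
  -- the number of the bad primes
  have hcard : ((F.filter (Bad H D)).card : ℝ) ≤ ((H : ℝ) + 1) ^ 2 * (3 * L) := by
    have h1 : F.filter (Bad H D) ⊆ (range (H + 1) ×ˢ range (H + 1)).biUnion fun e => (D + e.1 - e.2).primeFactors := by
      intro p hp
      obtain ⟨h2, s, hs, s', hs', h3⟩ := mem_filter.1 hp
      refine mem_biUnion.2 ⟨(s, s'), mem_product.2 ⟨mem_range.2 (by omega), mem_range.2 (by omega)⟩, ?_⟩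
      exact Nat.mem_primeFactors.2 ⟨(hFm p h2).2, h3, by dsimp only; omega⟩
    have h2 := (Finset.card_le_card h1).trans Finset.card_biUnion_le
    have h3 : ((F.filter (Bad H D)).card : ℝ) ≤ ∑ e ∈ range (H + 1) ×ˢ range (H + 1),
        ((D + e.1 - e.2).primeFactors.card : ℝ) := by exact_mod_cast h2
    refine h3.trans ?_
    have h4 : ∀ e ∈ range (H + 1) ×ˢ range (H + 1), ((D + e.1 - e.2).primeFactors.card : ℝ) ≤ 3 * L := by
      intro e he
      obtain ⟨h5, h6⟩ := mem_product.1 he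
      have h5' := mem_range.1 h5
      have h6' := mem_range.1 h6
      have hpos : 0 < D + e.1 - e.2 := by omega
      have h7 := card_pf (D + e.1 - e.2) hpos
      have h8 : Real.log ((D + e.1 - e.2 : ℕ) : ℝ) ≤ Real.log 2 + L := by
        have h9 : ((D + e.1 - e.2 : ℕ) : ℝ) ≤ 2 * X := by
          have : D + e.1 - e.2 ≤ 2 * X := by omega
          exact_mod_cast this
        have h10 : (0 : ℝ) < ((D + e.1 - e.2 : ℕ) : ℝ) := by exact_mod_cast hpos
        have hX0 : (X : ℝ) ≠ 0 := by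
          intro h
          rw [h, mul_zero] at h9
          linarith
        have h11 := Real.log_le_log h10 h9
        rw [Real.log_mul (by norm_num) hX0, ← hL] at h11
        exact h11
      have h12 : (1 / 2 : ℝ) < Real.log 2 := by
        have := Real.log_two_gt_d9
        linarith
      have h13 : Real.log 2 < 1 := by
        have := Real.log_two_lt_d9
        linarith
      have hc0 : (0 : ℝ) ≤ ((D + e.1 - e.2).primeFactors.card : ℝ) := Nat.cast_nonneg _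
      by_contra hcon
      push Not at hcon
      nlinarith
    refine (Finset.sum_le_card_nsmul _ _ _ h4).trans (le_of_eq ?_)
    rw [Finset.card_product, Finset.card_range, nsmul_eq_mul]
    push_cast
    ring
  have hb2 : ∑ p ∈ F, (if Bad H D p then 32 * ((H : ℝ) + 1) / (p : ℝ) else 0) ≤
      ((H : ℝ) + 1) ^ 2 * (3 * L) * (32 * ((H : ℝ) + 1) / w) := by
    rw [← Finset.sum_filter]
    have h1 : ∀ p ∈ F.filter (Bad H D), 32 * ((H : ℝ) + 1) / (p : ℝ) ≤ 32 * ((H : ℝ) + 1) / w := by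
      intro p hp
      have h2 : (w : ℝ) ≤ p := by exact_mod_cast (hFm p (mem_filter.1 hp).1).1.le
      exact div_le_div_of_nonneg_left (by positivity) hw0 h2
    refine (Finset.sum_le_card_nsmul _ _ _ h1).trans ?_
    rw [nsmul_eq_mul]
    exact mul_le_mul_of_nonneg_right hcard (by positivity)
  have hH0 : (0 : ℝ) ≤ (H : ℝ) + 1 := by positivity
  have hH2 : ((H : ℝ) + 1) ^ 2 ≤ 4 * L ^ 4 := by
    calc ((H : ℝ) + 1) ^ 2 ≤ (2 * L ^ 2) ^ 2 := pow_le_pow_left₀ hH0 hH 2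
      _ = 4 * L ^ 4 := by ring
  have hH3 : ((H : ℝ) + 1) ^ 3 ≤ 8 * L ^ 6 := by
    calc ((H : ℝ) + 1) ^ 3 ≤ (2 * L ^ 2) ^ 3 := pow_le_pow_left₀ hH0 hH 3
      _ = 8 * L ^ 6 := by ring
  have hL47 : L ^ 4 ≤ L ^ 7 := pow_le_pow_right₀ hL1 (by norm_num)
  have hc1 : 8 * ((H : ℝ) + 1) ^ 2 / w ≤ 32 * L ^ 7 / w := by
    apply div_le_div_of_nonneg_right _ hw0.le
    linarith
  have hc2 : ((H : ℝ) + 1) ^ 2 * (3 * L) * (32 * ((H : ℝ) + 1) / w) ≤ 768 * L ^ 7 / w := by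
    have h0 : ((H : ℝ) + 1) ^ 2 * (3 * L) * (32 * ((H : ℝ) + 1) / w) = 96 * L * ((H : ℝ) + 1) ^ 3 / w := by ring
    rw [h0]
    apply div_le_div_of_nonneg_right _ hw0.le
    have h1 : 96 * L * ((H : ℝ) + 1) ^ 3 ≤ 96 * L * (8 * L ^ 6) :=
      mul_le_mul_of_nonneg_left hH3 (by positivity)
    have h2 : 96 * L * (8 * L ^ 6) = 768 * L ^ 7 := by ring
    linarith
  have hsum : 800 * L ^ 7 / (w : ℝ) = 32 * L ^ 7 / w + 768 * L ^ 7 / w := by ring
  rw [hsum]
  exact add_le_add (hb1.trans hc1) (hb2.trans hc2)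

theorem t_COR : S_COR := by
  intro ε hε hε1
  have hlog : Tendsto (fun X : ℕ => Real.log X) atTop atTop :=
    Real.tendsto_log_atTop.comp tendsto_natCast_atTop_atTop
  have hpow : Tendsto (fun X : ℕ => Real.log X ^ (ε / 4)) atTop atTop :=
    (tendsto_rpow_atTop (by positivity)).comp hlog
  -- `L ^ 7` is a fixed power of `u = L ^ (ε / 4)`
  have hexp : ∀ᶠ u : ℝ in atTop, 3200 * u ^ (28 / ε) ≤ Real.exp (u / 2) := by
    have h1 := (isLittleO_rpow_exp_pos_mul_atTop (28 / ε) (by norm_num : (0 : ℝ) < 1 / 2)).bound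
      (by norm_num : (0 : ℝ) < 1 / 3200)
    filter_upwards [h1, eventually_ge_atTop 0] with u hu hu0
    rw [Real.norm_of_nonneg (Real.rpow_nonneg hu0 _), Real.norm_of_nonneg (Real.exp_pos _).le] at hu
    have e : (1 / 2 : ℝ) * u = u / 2 := by ring
    rw [e] at hu
    linarith
  obtain ⟨X₀, hX₀⟩ := eventually_atTop.1 ((hpow.eventually hexp).and ((hlog.eventually (eventually_ge_atTop 1)).and
    (hpow.eventually (eventually_ge_atTop 1))))
  refine ⟨X₀, fun X hX H T hH hT D hD hDX => ?_⟩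
  obtain ⟨h1, h2, h3⟩ := hX₀ X hX
  set L := Real.log X with hLdef
  have hL0 : 0 < L := by linarith
  have hLu : (L ^ (ε / 4)) ^ (28 / ε) = L ^ 7 := by
    rw [← Real.rpow_mul hL0.le, show ε / 4 * (28 / ε) = ((7 : ℕ) : ℝ) by field_simp; norm_num, Real.rpow_natCast]
  rw [hLu] at h1
  have hw : Real.exp (L ^ (ε / 4)) / 2 ≤ (yy ε X : ℝ) := by
    have ha := Nat.lt_floor_add_one (Real.exp (L ^ (ε / 4)))
    have hb : (2 : ℝ) ≤ Real.exp (L ^ (ε / 4)) := by
      have := Real.add_one_le_exp (L ^ (ε / 4))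
      linarith
    unfold yy
    rw [← hLdef]
    linarith
  have hexp0 := Real.exp_pos (L ^ (ε / 4))
  have hw0 : (0 : ℝ) < (yy ε X : ℝ) := by linarith
  have hH1 : (H : ℝ) + 1 ≤ 2 * L ^ 2 := by
    have ha : L ^ (2 - ε) ≤ L ^ (2 : ℝ) := Real.rpow_le_rpow_of_exponent_le h2 (by linarith)
    rw [Real.rpow_two] at ha
    have hb : 1 ≤ L ^ 2 := one_le_pow₀ h2
    linarith
  have hmain := cor_gen (Q2 ε X) (B2 ε X) (yy ε X) X H D T L hLdef h2 (by exact_mod_cast hw0)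
    (fun p hp => ⟨(mem_Ioc.1 (mem_filter.1 hp).1).1, (mem_filter.1 hp).2⟩) hH1 hT hD (by omega)
  have he : 800 * L ^ 7 / (yy ε X : ℝ) ≤ Real.exp (-(L ^ (ε / 4) / 2)) / 2 := by
    rw [div_le_iff₀ hw0]
    have ha : Real.exp (-(L ^ (ε / 4) / 2)) / 2 * (Real.exp (L ^ (ε / 4)) / 2) ≤
        Real.exp (-(L ^ (ε / 4) / 2)) / 2 * (yy ε X : ℝ) :=
      mul_le_mul_of_nonneg_left hw (by positivity)
    have hb : Real.exp (-(L ^ (ε / 4) / 2)) / 2 * (Real.exp (L ^ (ε / 4)) / 2) = Real.exp (L ^ (ε / 4) / 2) / 4 := by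
      have hc : Real.exp (-(L ^ (ε / 4) / 2)) * Real.exp (L ^ (ε / 4)) = Real.exp (L ^ (ε / 4) / 2) := by
        rw [← Real.exp_add]; congr 1; ring
      rw [← hc]; ring
    rw [hb] at ha
    linarith
  have hs1 : Real.exp (-(L ^ (ε / 4) / 2)) ≤ 1 := by
    rw [Real.exp_le_one_iff]
    linarith
  have h5 : (0 : ℝ) ≤ 800 * L ^ 7 / (yy ε X : ℝ) := by positivity
  have h6 := exp_le h5 (by linarith)
  linarith

end Pool.Agent.V5helper49.LR
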