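import Pool.Agent.V5helper49.LR.All
import Pool.Agent.V5helper49.LR.COR
import Pool.Agent.V5helper31.LR.MAS2
import Pool.Agent.V5helper81.LR.CNT
import Pool.Agent.V5helper81.LR.BRN
import Pool.Agent.V5helper3.LR.RHO2
import Pool.Agent.V5helper65.LR.BON
import Pool.Agent.V5helper9.LR.PAT2
import Pool.Agent.V5helper61.LR.FIX2
import Pool.Agent.V5helper84.LR.PRB2
import Pool.Agent.V5helper84.LR.UNI

/-! Project LR, part 3: universality. -/

set_option autoImplicit false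

namespace Pool.Agent.V5helper49.LR

universe u

theorem h_FIX2 : S_FIX2 :=
  Pool.Agent.V5helper61.LR.t_FIX2 Pool.Agent.V5helper70.LR.t_EEJ Pool.Agent.V5helper34.LR.t_CHB
    Pool.Agent.V5helper31.LR.t_MAS2 (Pool.Agent.V5helper3.LR.t_RHO2 Pool.Agent.V5helper65.LR.t_INS1 Pool.Agent.V5helper31.LR.t_MAS2)
    h_JNT t_COR

theorem h_PRB2 : S_PRB2.{u} :=
  Pool.Agent.V5helper84.LR.t_PRB2 h_FIX2 (Pool.Agent.V5helper9.LR.t_PAT2 Pool.Agent.V5helper31.LR.t_MAS2)
    (Pool.Agent.V5helper81.LR.t_BRN Pool.Agent.V5helper65.LR.t_BON Pool.Agent.V5helper81.LR.t_CNT)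

theorem main_uni : S_UNI.{u} := Pool.Agent.V5helper84.LR.t_UNI h_PRB2

end Pool.Agent.V5helper49.LR
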