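import Pool.Agent.V5helper49.LR.Stm2

/-! Project LR: consequences for the final statement. -/

set_option autoImplicit false

namespace Pool.Agent.V5helper49.LR

open Finset MeasureTheory ProbabilityTheory Filter Topology
open scoped ENNReal

/-- the last `k` elements of a run -/
lemma run_tail {A : Set ℕ} {k k' n d : ℕ} (h : Run A k' n d) (hk : k ≤ k') (hk0 : 1 ≤ k) :
    Run A k (n + (k' - k) * d) d := by
  obtain ⟨hd, h1, h2⟩ := h
  refine ⟨hd, fun i hi => ?_, fun m hm hm1 hm2 => ?_⟩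
  · have := h1 (k' - k + i) (by omega)
    have e : n + (k' - k) * d + i * d = n + (k' - k + i) * d := by ring
    rw [e]; exact this
  · have e : n + (k' - k) * d + (k - 1) * d = n + (k' - 1) * d := by
      have : k' - 1 = (k' - k) + (k - 1) := by omega
      rw [this]; ring
    rw [e] at hm2
    obtain ⟨i, hi, hi2⟩ := h2 m hm (by omega) hm2
    have hlt : (k' - k) * d < i * d := by omega
    have hlt2 : k' - k < i := lt_of_mul_lt_mul_right hlt (Nat.zero_le d)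
    refine ⟨i - (k' - k), by omega, ?_⟩
    have e2 : i = (i - (k' - k)) + (k' - k) := by omega
    rw [hi2]
    conv_lhs => rw [e2]
    ring

/-- arbitrarily long runs give infinitely many runs of every length -/
lemma run_inf {A : Set ℕ} (h : ∀ K : ℕ, ∃ k n d : ℕ, K ≤ k ∧ Run A k n d) (k N : ℕ) :
    ∃ n d : ℕ, N ≤ n ∧ Run A k n d := by
  obtain ⟨k', n, d, hk', hr⟩ := h (k + 1 + N)
  have h1 := run_tail hr (k := k + 1) (by omega) (by omega)
  obtain ⟨hd, h2, h3⟩ := h1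
  have hN : N ≤ n + (k' - (k + 1)) * d := by
    have : N * 1 ≤ (k' - (k + 1)) * d := Nat.mul_le_mul (by omega) hd
    omega
  refine ⟨n + (k' - (k + 1)) * d, d, hN, hd, fun i hi => h2 i (by omega), fun m hm hm1 hm2 => ?_⟩
  obtain ⟨i, hi, hi2⟩ := h3 m hm hm1 (by
    have : (k - 1) * d ≤ (k + 1 - 1) * d := Nat.mul_le_mul (by omega) le_rfl
    omega)
  refine ⟨i, ?_, hi2⟩
  have hlt : i * d < (k - 1) * d := by omega
  have := lt_of_mul_lt_mul_right hlt (Nat.zero_le d)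
  omega

/-- the length of the longest run of consecutive elements of `A` in arithmetic progression up to `x` -/
noncomputable def longest (A : Set ℕ) (x : ℝ) : ℕ := sSup {k : ℕ | ∃ n d : ℕ, Run A k n d ∧ ((n + (k - 1) * d : ℕ) : ℝ) ≤ x}

lemma loglog_tendsto : Tendsto (fun x : ℝ => Real.log (Real.log x)) atTop atTop :=
  Real.tendsto_log_atTop.comp Real.tendsto_log_atTop

/-- the limit -/
lemma longest_tendsto {A : Set ℕ}
    (hl : ∀ ε : ℝ, 0 < ε → ∀ᶠ x : ℝ in atTop, ∃ k n d : ℕ, (2 - ε) * Real.log (Real.log x) ≤ k ∧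
      Run A k n d ∧ ((n + (k - 1) * d : ℕ) : ℝ) ≤ x)
    (hu : ∀ ε : ℝ, 0 < ε → ∀ᶠ x : ℝ in atTop, ∀ k n d : ℕ, Run A k n d → ((n + (k - 1) * d : ℕ) : ℝ) ≤ x →
      (k : ℝ) ≤ (2 + ε) * Real.log (Real.log x)) :
    Tendsto (fun x : ℝ => (longest A x : ℝ) / Real.log (Real.log x)) atTop (𝓝 2) := by
  rw [Metric.tendsto_atTop']
  intro ε hε
  have hε2 : 0 < ε / 2 := by positivity
  obtain ⟨x₀, hx₀⟩ := eventually_atTop.1 ((hl (ε / 2) hε2).and ((hu (ε / 2) hε2).and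
    (loglog_tendsto.eventually (eventually_gt_atTop 0))))
  refine ⟨x₀, fun x hx => ?_⟩
  obtain ⟨⟨k, n, d, h1, h2, h3⟩, h4, h5⟩ := hx₀ x hx.le
  have hbd : BddAbove {k : ℕ | ∃ n d : ℕ, Run A k n d ∧ ((n + (k - 1) * d : ℕ) : ℝ) ≤ x} := by
    refine ⟨⌊(2 + ε / 2) * Real.log (Real.log x)⌋₊, ?_⟩
    rintro j ⟨n', d', hr, hle⟩
    exact Nat.le_floor (h4 j n' d' hr hle)
  have hge : k ≤ longest A x := le_csSup hbd ⟨n, d, h2, h3⟩
  have hle : (longest A x : ℝ) ≤ (2 + ε / 2) * Real.log (Real.log x) := by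
    have hmem : longest A x ∈ {k : ℕ | ∃ n d : ℕ, Run A k n d ∧ ((n + (k - 1) * d : ℕ) : ℝ) ≤ x} :=
      Nat.sSup_mem ⟨k, n, d, h2, h3⟩ hbd
    obtain ⟨n', d', hr, hle⟩ := hmem
    exact h4 _ n' d' hr hle
  have hge2 : (2 - ε / 2) * Real.log (Real.log x) ≤ longest A x := h1.trans (by exact_mod_cast hge)
  rw [Real.dist_eq, abs_lt]
  constructor
  · have : 2 - ε / 2 ≤ (longest A x : ℝ) / Real.log (Real.log x) := by
      rw [le_div_iff₀ h5]; exact hge2
    linarith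
  · have : (longest A x : ℝ) / Real.log (Real.log x) ≤ 2 + ε / 2 := by
      rw [div_le_iff₀ h5]; exact hle
    linarith

/-- arbitrarily long runs -/
lemma long_runs {A : Set ℕ}
    (hl : ∀ ε : ℝ, 0 < ε → ∀ᶠ x : ℝ in atTop, ∃ k n d : ℕ, (2 - ε) * Real.log (Real.log x) ≤ k ∧
      Run A k n d ∧ ((n + (k - 1) * d : ℕ) : ℝ) ≤ x) (K : ℕ) : ∃ k n d : ℕ, K ≤ k ∧ Run A k n d := by
  obtain ⟨x, ⟨k, n, d, h1, h2, _⟩, h4⟩ := ((hl 1 one_pos).and
    (loglog_tendsto.eventually (eventually_ge_atTop (K : ℝ)))).exists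
  refine ⟨k, n, d, ?_, h2⟩
  have : (K : ℝ) ≤ k := by linarith
  exact_mod_cast this

end Pool.Agent.V5helper49.LR
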