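import Pool.Agent.V5helper49.LR.Asm

/-! Project LR: the final statement from the jobs LOW, GAP, RUNU, PRB. -/

set_option autoImplicit false

namespace Pool.Agent.V5helper49.LR

open Finset MeasureTheory ProbabilityTheory Filter Topology
open scoped ENNReal
open Pool.Agent.V5helper42.RS (EE S PP W model)

universe u

/-- the longest runs -/
theorem fin_runs (hLOW : S_LOW.{u}) (hGAP : S_GAP.{u}) (hRUNU : S_RUNU) {Ω : Type u} [MeasurableSpace Ω] (μ : Measure Ω)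
    [IsProbabilityMeasure μ] (a : ℕ → Ω → ℕ) (hm : ∀ p, Measurable (a p)) (hi : iIndepFun a μ)
    (hu : ∀ p : ℕ, p.Prime → ∀ r < p, μ {ω | a p ω = r} = (p : ℝ≥0∞)⁻¹) :
    ∀ᵐ ω ∂μ, (∀ ε : ℝ, 0 < ε → ∀ᶠ x : ℝ in atTop,
        (∃ k n d : ℕ, (2 - ε) * Real.log (Real.log x) ≤ k ∧ Run (model fun p => a p ω) k n d ∧
          ((n + (k - 1) * d : ℕ) : ℝ) ≤ x) ∧
        ∀ k n d : ℕ, Run (model fun p => a p ω) k n d → ((n + (k - 1) * d : ℕ) : ℝ) ≤ x →
          (k : ℝ) ≤ (2 + ε) * Real.log (Real.log x)) ∧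
      ∀ k N : ℕ, ∃ n d : ℕ, N ≤ n ∧ Run (model fun p => a p ω) k n d := by
  filter_upwards [hLOW μ a hm hi hu, hGAP μ a hm hi hu, Pool.Agent.V5helper42.RS.ae_lt μ a hm hu] with ω h1 h2 h3
  refine ⟨fun ε hε => (h1 ε hε).and (hRUNU (fun p => a p ω) h3 h2 ε hε), fun k N => ?_⟩
  exact run_inf (long_runs h1) k N

/-- every admissible finite pattern is an exact block infinitely often -/
theorem fin_pat (hPRB : S_PRB.{u}) {Ω : Type u} [MeasurableSpace Ω] (μ : Measure Ω)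
    [IsProbabilityMeasure μ] (a : ℕ → Ω → ℕ) (hm : ∀ p, Measurable (a p)) (hi : iIndepFun a μ)
    (hu : ∀ p : ℕ, p.Prime → ∀ r < p, μ {ω | a p ω = r} = (p : ℝ≥0∞)⁻¹) :
    ∀ᵐ ω ∂μ, ∀ (H : ℕ) (T : Finset ℕ), T ⊆ range (H + 1) → (∀ p : ℕ, p.Prime → ∃ b < p, ∀ t ∈ T, t % p ≠ b) →
      ∀ N : ℕ, ∃ n : ℕ, N ≤ n ∧ Ex (model fun p => a p ω) n H T := by
  rw [ae_all_iff]; intro H
  rw [ae_all_iff]; intro T
  by_cases hT : T ⊆ range (H + 1)
  swap
  · exact Eventually.of_forall fun ω h => absurd h hT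
  by_cases hA : ∀ p : ℕ, p.Prime → ∃ b < p, ∀ t ∈ T, t % p ≠ b
  swap
  · exact Eventually.of_forall fun ω _ h => absurd h hA
  have key : ∀ N : ℕ, ∀ᵐ ω ∂μ, ∃ n : ℕ, N ≤ n ∧ Ex (model fun p => a p ω) n H T := by
    intro N
    rw [ae_iff]
    obtain ⟨X₀, hX₀⟩ := hPRB 1 one_pos le_rfl
    have hlog : Tendsto (fun X : ℕ => Real.log X) atTop atTop :=
      Real.tendsto_log_atTop.comp tendsto_natCast_atTop_atTop
    have hlim : Tendsto (fun X : ℕ => ENNReal.ofReal (3 * Real.log X ^ (-(1 / 2) : ℝ))) atTop (𝓝 0) := by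
      have h1 : Tendsto (fun X : ℕ => 3 * Real.log X ^ (-(1 / 2) : ℝ)) atTop (𝓝 (3 * 0)) :=
        ((tendsto_rpow_neg_atTop (by norm_num : (0 : ℝ) < 1 / 2)).comp hlog).const_mul 3
      rw [mul_zero] at h1
      have h2 := ENNReal.tendsto_ofReal h1
      rwa [ENNReal.ofReal_zero] at h2
    refine le_antisymm (ge_of_tendsto hlim ?_) zero_le
    filter_upwards [eventually_ge_atTop X₀, eventually_ge_atTop N,
      hlog.eventually (eventually_ge_atTop (H : ℝ)),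
      ((tendsto_rpow_atTop (by norm_num : (0 : ℝ) < 1 / 50)).comp hlog).eventually (eventually_ge_atTop (T.card : ℝ))]
      with X h1 h2 h3 h4
    refine le_trans (measure_mono ?_) (hX₀ X h1 H T ?_ hT h4 hA μ a hm hi hu)
    · intro ω hω hex
      obtain ⟨n, hn1, hn2, hn3⟩ := hex
      exact hω ⟨n, by omega, hn3⟩
    · have e : (2 : ℝ) - 1 = 1 := by norm_num
      rw [e, Real.rpow_one]
      exact h3
  filter_upwards [ae_all_iff.2 key] with ω hω _ _ N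
  exact hω N

end Pool.Agent.V5helper49.LR
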