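import Pool.Agent.V5helper49.LR.Fin
import Pool.Agent.V5helper68.LR.PERM
import Pool.Agent.V5helper18.LR.PROD
import Pool.Agent.V5helper65.LR.INS1
import Pool.Agent.V5helper72.LR.INS2
import Pool.Agent.V5helper31.LR.SWP
import Pool.Agent.V5helper47.LR.JNT
import Pool.Agent.V5helper70.LR.EEJ
import Pool.Agent.V5helper34.LR.CHB
import Pool.Agent.V5helper31.LR.MAS
import Pool.Agent.V5helper6.LR.RHO
import Pool.Agent.V5helper34.LR.FIX
import Pool.Agent.V5helper31.LR.PAT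
import Pool.Agent.V5helper70.LR.PRB
import Pool.Agent.V5helper6.LR.LOW
import Pool.Agent.V5helper61.LR.LS
import Pool.Agent.V5helper94.LR.GAP
import Pool.Agent.V5helper23.LR.RUNU

/-! Project LR: everything except AVG and GAPP. -/

set_option autoImplicit false

namespace Pool.Agent.V5helper49.LR

universe u

theorem h_JNT : S_JNT :=
  Pool.Agent.V5helper47.LR.t_JNT Pool.Agent.V5helper68.LR.t_PERM Pool.Agent.V5helper18.LR.PROD.t_PROD
    (Pool.Agent.V5helper31.LR.t_SWP Pool.Agent.V5helper72.LR.t_INS2)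

theorem h_RHO : S_RHO := Pool.Agent.V5helper6.LR.t_RHO Pool.Agent.V5helper65.LR.t_INS1 Pool.Agent.V5helper31.LR.t_MAS

theorem h_PRB (hAVG : S_AVG) : S_PRB.{u} :=
  Pool.Agent.V5helper70.LR.t_PRB
    (Pool.Agent.V5helper34.LR.t_FIX Pool.Agent.V5helper70.LR.t_EEJ Pool.Agent.V5helper34.LR.t_CHB
      Pool.Agent.V5helper31.LR.t_MAS h_RHO h_JNT hAVG)
    (Pool.Agent.V5helper31.LR.t_PAT Pool.Agent.V5helper31.LR.t_MAS)

theorem h_LOW (hAVG : S_AVG) : S_LOW.{u} := Pool.Agent.V5helper6.LR.t_LOW (h_PRB hAVG)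

theorem h_GAP (hG : S_GAPP.{u}) : S_GAP.{u} := Pool.Agent.V5helper94.LR.t_GAP hG

end Pool.Agent.V5helper49.LR
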