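import Mathlib

/-!
# Project LR: the longest runs of consecutive elements in arithmetic progression in the random sieve model

Part 1: pure finite combinatorics (Mathlib only). A prime `p` gets a uniformly random class modulo `p`.
We look at the interval `[n, n + H]`; `x_p` is the class of the random residue relative to `n`. `T` is the set
of the places which should survive, `V` the set of the places which should be removed, `B` the set of the
(large) primes whose removals are counted. `A1` is the probability that all `p ∈ l` avoid `T` and that the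
`p ∈ l ∩ B` remove `V \ K`; `J` is the probability of this event for two intervals at distance `D`, where for
the primes in `U` the two intervals use independent classes.
-/

set_option autoImplicit false

namespace Pool.Agent.V5helper49.LR

open Finset

/-- the class `x` modulo `p` contains no element of `T` -/
def av (T : Finset ℕ) (p x : ℕ) : Prop := ∀ t ∈ T, t % p ≠ x

open Classical in
/-- the elements of `V` in the class `x` modulo `p`, if `p ∈ B` -/
noncomputable def hit (V B : Finset ℕ) (p x : ℕ) : Finset ℕ :=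
  if p ∈ B then V.filter (fun v => v % p = x) else ∅

open Classical in
/-- one interval -/
noncomputable def A1 (T V B : Finset ℕ) : List ℕ → Finset ℕ → ℝ
  | [], K => if V ⊆ K then 1 else 0
  | p :: l, K => (1 / (p : ℝ)) * ∑ x ∈ range p, if av T p x then A1 T V B l (K ∪ hit V B p x) else 0

open Classical in
/-- two intervals at distance `D`; the primes in `U` are decoupled -/
noncomputable def J (T V B U : Finset ℕ) (D : ℕ) : List ℕ → Finset ℕ → Finset ℕ → ℝ
  | [], K, K' => if V ⊆ K ∧ V ⊆ K' then 1 else 0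
  | p :: l, K, K' =>
    if p ∈ U then (1 / (p : ℝ)) ^ 2 * ∑ x ∈ range p, ∑ x' ∈ range p,
      if av T p x ∧ av T p x' then J T V B U D l (K ∪ hit V B p x) (K' ∪ hit V B p x') else 0
    else (1 / (p : ℝ)) * ∑ x ∈ range p,
      if av T p x ∧ av T p ((x + D) % p) then
        J T V B U D l (K ∪ hit V B p x) (K' ∪ hit V B p ((x + D) % p)) else 0

/-- the regular situation: all places are in `[0, H]`, the primes of `B` are large -/
structure Reg (T V B : Finset ℕ) (H w : ℕ) : Prop where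
  T_le : ∀ t ∈ T, t ≤ H
  V_le : ∀ v ∈ V, v ≤ H
  disj : Disjoint T V
  B_ge : ∀ p ∈ B, w ≤ p
  w_ge : 8 * (H + 1) ≤ w

/-- the class of `p` can meet both intervals (`p > H`) -/
def Col (H D p : ℕ) : Prop := ∃ s ≤ H, ∃ s' ≤ H, (s + D) % p = s'

open Classical in
/-- the number of classes modulo `p` which meet `T` in both intervals -/
noncomputable def ov (T : Finset ℕ) (D p : ℕ) : ℕ :=
  ((range p).filter (fun x => ¬ av T p x ∧ ¬ av T p ((x + D) % p))).card

open Classical in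
/-- the correlation of the two intervals at `p` -/
noncomputable def cc (T B : Finset ℕ) (H D p : ℕ) : ℝ :=
  if p ∈ B then 8 * ((H : ℝ) + 1) ^ 2 / (p : ℝ) ^ 2 + (if Col H D p then 32 * ((H : ℝ) + 1) / p else 0)
  else 4 * (ov T D p : ℝ) / p

open Classical in
/-- the mass of the primes of `B` in the list which cannot meet both intervals -/
noncomputable def mass (B : Finset ℕ) (H D : ℕ) (l : List ℕ) : ℝ :=
  (l.map (fun p : ℕ => if p ∈ B ∧ ¬ Col H D p then 1 / (p : ℝ) else 0)).sum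

/-- **LR-PERM** (60 lines). The order of the primes does not matter.
Proof. Induction on `List.Perm`. The only interesting case is the exchange of two adjacent elements `p`, `q`:
unfold both steps in the four cases `p ∈ U` or not, `q ∈ U` or not, pull the sums together
(`Finset.mul_sum`, `Finset.sum_comm`, `if a then (∑ if b then c else 0) else 0`) and use
`(K ∪ hit p x) ∪ hit q y = (K ∪ hit q y) ∪ hit p x`. It is convenient to write one step in the form
`∑ ω ∈ Ω p, g p ω * J l (K ∪ a p ω) (K' ∪ b p ω)` with `ω : ℕ × ℕ`, `Ω p = range p ×ˢ range p` for `p ∈ U`, and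
`Ω p = (range p).image (fun x => (x, (x + D) % p))` otherwise, `g` = weight times the indicator of `av`. -/
def S_PERM : Prop := ∀ (T V B U : Finset ℕ) (D : ℕ) (l l' : List ℕ), l.Perm l' → ∀ K K' : Finset ℕ,
  J T V B U D l K K' = J T V B U D l' K K'

/-- **LR-PROD** (40 lines). If all primes are decoupled, the probability is a product.
Proof. Induction on `l`; `∑ x, ∑ x', if a x ∧ a x' then f x * f' x' else 0 = (∑ x, if a x then f x else 0) * (∑ ...)`. -/
def S_PROD : Prop := ∀ (T V B U : Finset ℕ) (D : ℕ) (l : List ℕ), (∀ p ∈ l, p ∈ U) → ∀ K K' : Finset ℕ,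
  J T V B U D l K K' = A1 T V B l K * A1 T V B l K'

/-- **LR-INS1** (120 lines). Removing one more place costs little, one interval.
Proof. By induction on `l`, for all `K`, the stronger inequality with `m = #(V \ insert v K)` in place of `#V`:
`A1 l K ≥ (1 - exp (m / w - Σ l)) A1 l K₁`, `K₁ = insert v K`, `Σ l = ∑_{p ∈ l ∩ B} 1 / p`. (Write `φ l m = 1 - exp (m / w - Σ l) ≤ 1`; if `φ ≤ 0`
the claim is trivial because `A1 ≥ 0`. We may assume that `v ∉ K`, `φ ≥ 0`.) `l = []`: `φ ≤ 0`. Step `p :: l`, `p ∉ B`: all hits are empty,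
`A1 (p :: l) K = c A1 l K`, `c ≥ 0`, the same for `K₁`, and `Σ` does not change. Step `p ∈ B`: `p > H`, so `hit p x` is empty or one element of `V`,
and exactly one `x` has `v ∈ hit p x`, namely `x = v`; it avoids `T` (as `t % p = t ≠ v`). So
`A1 (p :: l) K = (1/p) ∑_{x avoids T} A1 l (K ∪ hit x)`, and the same for `K₁`. Let `N` be the set of the `x` which avoid `T` with `hit x ⊆ K₁` (no progress;
it contains `x = v`), `c = #N / p ≤ 1`. For `x ∈ N`, `x ≠ v`: `A1 l (K ∪ hit x) ≥ φ l m * A1 l (K₁ ∪ hit x) = φ l m * A1 l K₁` (here `insert v (K ∪ hit x) = K₁ ∪ hit x = K₁`);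
for `x = v`: `K ∪ hit v = K₁`. For the other `x` (progress): `#(V \ (K₁ ∪ hit x)) ≤ m - 1`, so `A1 l (K ∪ hit x) ≥ φ l (m-1) A1 l (K₁ ∪ hit x)`, and
`φ l (m-1) ≥ φ (p :: l) m` because `1/p ≤ 1/w`. Finally `(c - 1/p) φ + 1/p = c φ + (1 - φ)/p ≥ c (φ + (1 - φ)/p) ≥ c φ(p :: l) m`, `φ = φ l m`,
since `1 - exp (-1/p) (1 - φ) ≤ φ + (1 - φ)/p` (`Real.add_one_le_exp`). Sum up. (Here `m / w` is `0` for `w = 0`; by `w_ge` `w ≥ 8`.) -/
def S_INS1 : Prop := ∀ (T V B : Finset ℕ) (H w : ℕ), Reg T V B H w → ∀ l : List ℕ, (∀ p ∈ l, 0 < p) →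
  ∀ (K : Finset ℕ) (v : ℕ), v ∈ V →
    (1 - Real.exp ((V.card : ℝ) / w - (l.map (fun p : ℕ => open Classical in if p ∈ B then 1 / (p : ℝ) else 0)).sum)) *
      A1 T V B l (insert v K) ≤ A1 T V B l K

/-- **LR-INS2** (200 lines). The same for two intervals (any set `U` of decoupled primes); only half of the mass of the primes of `B` which cannot meet both intervals
is used. Proof. As for INS1, by induction on `l`, for all `K`, `K'`, with `m = #(V \ insert v K) + #(V \ K')` in place of `2 #V` and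
`φ l m = 1 - exp (m / w - mass l / 2)`. One step has the form `J (p :: l) K K' = ∑_ω g ω J l (K ∪ a ω) (K' ∪ b ω)` with `g ≥ 0`, `∑_ω g ω ≤ 1`, where `ω = (x, x')`
runs over the pairs (`p ∈ U`) or over the `(x, (x + D) % p)` (`p ∉ U`). If `p ∉ B`, or if `Col H D p`: `mass` does not change and
`J l (K ∪ a) (K' ∪ b) ≥ φ l m' J l (K₁ ∪ a) (K' ∪ b)`, `m' ≤ m`, for each `ω` (if `v ∈ a` the two sides are `y ≥ φ y`). If `p ∈ B` and not `Col H D p`: the outcomes `ω` with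
`x = v` and `b ω = ∅`, `x'` avoiding `T` (solo outcomes) have total weight `σ ≥ 1/(2p)`: for `p ∉ U` the outcome `(v, (v + D) % p)`, weight `1/p`: `(v + D) % p > H` as `p` is not
`Col`; for `p ∈ U` the outcomes `(v, x')`, `H < x' < p`, weight `(p - H - 1)/p² ≥ 1/(2p)`. On the solo outcomes `K ∪ a = K₁`. With
`c ≤ 1` the total weight of the outcomes without progress (`a ⊆ K₁`, `b ⊆ K'`; they include the solo outcomes) we get, as before,
`(c - σ) φ + σ ≥ c φ + (1 - φ)/(2p) ≥ c (φ + (1 - φ)/(2p)) ≥ c φ (p :: l) m`, and for the outcomes with progress `φ l (m - 1) ≥ φ (p :: l) m` since `1/(2p) ≤ 1/w`.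
The second inequality of the conclusion follows in the same way (or by a symmetry). -/
def S_INS2 : Prop := ∀ (T V B U : Finset ℕ) (H w D : ℕ), Reg T V B H w → ∀ l : List ℕ, (∀ p ∈ l, 0 < p) →
  ∀ (K K' : Finset ℕ) (v : ℕ), v ∈ V →
    (1 - Real.exp (2 * (V.card : ℝ) / w - mass B H D l / 2)) * J T V B U D l (insert v K) K' ≤ J T V B U D l K K' ∧
    (1 - Real.exp (2 * (V.card : ℝ) / w - mass B H D l / 2)) * J T V B U D l K (insert v K') ≤ J T V B U D l K K'

/-- **LR-SWP** (200 lines, uses INS2). Decoupling one prime `p`.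
Proof. Let `Φ K K' = J U l K K'`; it is also `J (insert p U) l K K'` as `p ∉ l` (easy induction). By INS2 and `mass ≥ 9/2`, `2 #V / w ≤ 1/4` (`V ⊆ [0, H]`, `w ≥ 8 (H+1)`), the factor of INS2 is
`≥ 1 - exp (-2) ≥ 1/2`, so `Φ (insert v K) K' ≤ 2 Φ K K'`, `Φ K (insert v K') ≤ 2 Φ K K'`. Let `Φ₀ = Φ ∅ ∅`.
(a) `p ∉ B`: no hits; with `u` the number of the `x < p` which meet `T` (`u ≤ #T ≤ p/2`) the coupled side is `(1 - (2u - ov)/p) Φ₀` and the decoupled one `(1 - u/p)² Φ₀`;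
`1 - (2u - ov)/p ≤ (1 - u/p)² + ov/p ≤ (1 - u/p)² (1 + 4 ov/p)`.
(b) `p ∈ B`, not `Col`: `x` and `(x + D) % p` are never both `≤ H`. Coupled, with `s = #T + #V ≤ H + 1`: `(1 - 2s/p) Φ₀ + (1/p) ∑_v Φ {v} ∅ + (1/p) ∑_v Φ ∅ {v}` (`≤` suffices). Decoupled
`≥ (1 - s/p)² Φ₀ + (1/p)(1 - s/p)(∑_v Φ {v} ∅ + ∑_v Φ ∅ {v})`. The difference is `≤ (s/p²)(∑ + ∑) ≤ 4 s²/p² Φ₀`, and the decoupled side is `≥ (1 - s/p)² Φ₀ ≥ Φ₀/2`. So the factor
`1 + 8 s²/p²` suffices.
(c) `p ∈ B`, `Col`: the coupled side is `≤ Φ₀ + (2 s/p) 4 Φ₀` (at most `2 s` of the `p` outcomes have a hit, each `≤ 4 Φ₀`), the decoupled one `≥ (1 - s/p)² Φ₀ ≥ (1 - 2s/p) Φ₀`; with `s/p ≤ 1/8`: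
`1 + 8 s/p ≤ (1 - 2s/p)(1 + 32 s/p)`. -/
def S_SWP : Prop := ∀ (T V B U : Finset ℕ) (H w D : ℕ), Reg T V B H w → ∀ (p : ℕ) (l : List ℕ), 0 < p → (∀ q ∈ l, 0 < q) →
  p ∉ U → p ∉ l → (p ∉ B → 2 * T.card ≤ p) → 9 / 2 ≤ mass B H D l →
  J T V B U D (p :: l) ∅ ∅ ≤ (1 + cc T B H D p) * J T V B (insert p U) D (p :: l) ∅ ∅

/-- **LR-JNT** (100 lines, uses PERM, PROD, SWP). Decoupling all primes.
Proof. For `U ⊆ l.toFinset` by induction on `U` (`Finset.induction_on`): `J ∅ l ≤ (∏_{p ∈ U} (1 + cc p)) J U l`. Step: take `p ∈ l \ U`; `l` is a permutation of `p :: l.erase p`;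
`mass (l.erase p) ≥ mass l - 1/p ≥ 5 - 1/8` if `p ∈ B` (and `= mass l` if `p ∉ B`); apply SWP and go back with PERM. At the end `U = l.toFinset`, PROD, and the product over `l.toFinset` is the
product of the list as `l` has no duplicates. -/
def S_JNT : Prop := ∀ (T V B : Finset ℕ) (H w D : ℕ), Reg T V B H w → ∀ l : List ℕ, l.Nodup → (∀ p ∈ l, 0 < p) →
  (∀ p ∈ l, p ∉ B → 2 * T.card ≤ p) → 5 ≤ mass B H D l →
  J T V B ∅ D l ∅ ∅ ≤ (l.map (fun p => 1 + cc T B H D p)).prod * A1 T V B l ∅ ^ 2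

/-! ### parameters -/

/-- `log X / 4` -/
noncomputable def z1 (X : ℕ) : ℕ := ⌊Real.log X / 4⌋₊

/-- `(log X) ^ 40` -/
noncomputable def ww (X : ℕ) : ℕ := ⌈Real.log X ^ 40⌉₊

/-- `exp (2 (log X) ^ (1 - ε / 4))` -/
noncomputable def Y2 (ε : ℝ) (X : ℕ) : ℕ := ⌊Real.exp (2 * Real.log X ^ (1 - ε / 4))⌋₊

/-- the primes used to remove the places in `V` -/
noncomputable def Bs (ε : ℝ) (X : ℕ) : Finset ℕ := (Ioc (ww X) (Y2 ε X)).filter Nat.Prime

/-- the primes with random classes -/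
noncomputable def QQ (X : ℕ) : Finset ℕ := (Ioc (z1 X) (3 * X)).filter Nat.Prime

/-- **LR-AVG** (300 lines). The average of the correlation over the pairs of intervals.
Proof. Let `L = log X`, `k = #T`, `D = Q (δ + 1)`; `H < D ≤ X`. Write `∏ (1 + cc) ≤ P₁ P₂ P₃`.
`P₁`: `p ∈ B`: `∏ ≤ exp (∑_{p ∈ B} (8 (H+1)²/p² + [Col] 32 (H+1)/p))`. `∑_{p > w} 1/p² ≤ 1/w`, and `Col H D p` implies `p ∣ D + s - s'` for some `s, s' ≤ H`, a positive integer `≤ 2 X`
(depending only on `D + s - s' =: e`, `2 H + 1` values), which has at most `log₂ (2 X) ≤ 2 L + 2` prime divisors, each `≥ w`: the exponent is `≤ 8 (H+1)²/w + 32 (H+1)(2H+1)(2L+2)/w ≤ L^{-30}` as `H ≤ L²`, `w ≥ L^40`.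
`P₂`: `p ∉ B`, `p > Y2` (or more generally all `p ∉ B` with `p > w`; these are the `p > Y2`): `ov T D p ≤ #{(t, t') ∈ T² : p ∣ D + t - t'}` (if `x` and `(x + D) % p` both meet `T` take `t ≡ x`, `t' ≡ x + D`;
different `x` give different pairs), so `∑_{p > w} 4 ov/p ≤ 4 k² (2 L + 2)/w ≤ L^{-30}`.
`P₃`: `z1 < p ≤ w`: `∏ (1 + 4 ov/p) ≤ ∏_{(t,t')} ∏_{p ∣ D + t - t', z1 < p ≤ w} (1 + 4/p)`. Let `j = k²` (if `k = 0` the product is 1). By the inequality of the arithmetic and geometric means this is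
`≤ (1/j) ∑_{(t,t')} ψ (D + t - t')`, `ψ m = ∏_{p ∣ m, z1 < p ≤ w} (1 + 4/p)^j ≤ ∏_{p ∣ m} (1 + 8 j/p)` (`4 j/p ≤ 1`, `(1 + 4/p)^j ≤ exp (4j/p) ≤ 1 + 8j/p`) `= ∑_{q ∣ m} (8j)^{ω(q)}/q`, `q` over the
products of different primes of `(z1, w]`. For fixed `(t, t')` the number of the `δ < M` with `q ∣ Q (δ+1) + t - t'` is `≤ M/q + 1` (`Q` is prime to `q`). So
`∑_{δ < M} ψ ≤ M ∏ (1 + 8j/p²) + ∏ (1 + 8j/p) ≤ M exp (8j/z1) + exp (8 j ∑_{p ≤ w} 1/p)`. With `j ≤ L^{1/25}`, `z1 ≥ L/5`, `∑_{p ≤ w} 1/p ≤ log log w + C ≤ L^{1/25}`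
(very crude bounds are enough, e.g. `∑_{n ≤ w} 1/n ≤ 1 + log w ≤ 50 log L`): `≤ M (1 + L^{-4/5}) + exp (L^{1/4}) ≤ M + N L^{-3/5}` as `M ≤ N`, `N ≥ X^{1/4}`. (Products over divisors: `Finset.prod_one_add` or
`Finset.prod_add`; the integers `D + t - t'` are positive since `D > H`.) -/
def S_AVG : Prop := ∀ ε : ℝ, 0 < ε → ε ≤ 1 → ∃ X₀ : ℕ, ∀ X : ℕ, X₀ ≤ X → ∀ (H : ℕ) (T : Finset ℕ),
  (H : ℝ) ≤ Real.log X ^ (2 - ε) → T ⊆ range (H + 1) → (T.card : ℝ) ≤ Real.log X ^ (1 / 50 : ℝ) →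
  ∀ Q N M : ℕ, H < Q → (∀ p ∈ QQ X, ¬ p ∣ Q) → (X : ℝ) ^ (1 / 4 : ℝ) ≤ N → Q * N ≤ X → M ≤ N →
  ∑ δ ∈ range M, ∏ p ∈ QQ X, (1 + cc T (Bs ε X) H (Q * (δ + 1)) p) ≤ M + N * Real.log X ^ (-(1 / 2) : ℝ)

end Pool.Agent.V5helper49.LR
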