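import Pool.Agent.V5helper42.RS.E
import Pool.Agent.V5helper49.LR.Stm

/-!
# Project LR, part 2: the model

`EE l F ρ` is the average of `F` over the classes of the `p ∈ l` (`V5helper42.RS.A`), `S ρ l A` the set of the elements of `A`
outside the classes, `PP l = ∏ (1 - 1/p)`, `W`, `model`, `TT` as in `V5helper42.RS.W`.
-/

set_option autoImplicit false

namespace Pool.Agent.V5helper49.LR

open Finset MeasureTheory ProbabilityTheory Filter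
open scoped ENNReal
open Pool.Agent.V5helper42.RS (EE S PP W model)

/-- the classes of the `p ∈ l` avoid `n + T`, and those of the `p ∈ l ∩ B` cover `n + V` -/
def Ok (T V B : Finset ℕ) (l : List ℕ) (n : ℕ) (ρ : ℕ → ℕ) : Prop :=
  (∀ p ∈ l, ∀ t ∈ T, (n + t) % p ≠ ρ p) ∧ ∀ v ∈ V, ∃ p ∈ l, p ∈ B ∧ (n + v) % p = ρ p

/-- the elements of `A` in `[n, n + H]` are exactly the `n + t`, `t ∈ T` -/
def Ex (A : Set ℕ) (n H : ℕ) (T : Finset ℕ) : Prop := ∀ j : ℕ, j ≤ H → (n + j ∈ A ↔ j ∈ T)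

/-- `n, n + d, ..., n + (k - 1) d` are consecutive elements of `A` -/
def Run (A : Set ℕ) (k n d : ℕ) : Prop :=
  1 ≤ d ∧ (∀ i < k, n + i * d ∈ A) ∧ ∀ m ∈ A, n < m → m < n + (k - 1) * d → ∃ i < k, m = n + i * d

open Classical in
/-- **LR-EEJ** (150 lines). The meaning of `A1` and `J`.
Proof. By induction on `l` for all `ρ`, `K`, `K'` and with `V \ K` (`V \ K'`) instead of `V` in `Ok`. One step: in `EE (p :: l)` the class of `p` is `r ∈ range p`; as `p ∉ l` the function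
`Function.update ρ p r` agrees with `ρ` on `l`, and the `EE l` of the indicator depends only on the classes of the `p ∈ l` (`EE_congr`: inside `EE l` the value at `p ∉ l` is `r`). Substitute
`r = (n + x) % p`, `x ∈ range p` (a bijection of `range p`): `(n + t) % p ≠ r` iff `t % p ≠ x` (`Nat.ModEq.add_left_cancel`), `(n + v) % p = r` iff `v % p = x`; for the second interval,
`n = n' + D`: `r = (n + x) % p = (n' + (x + D) % p) % p`. -/
def S_EEJ : Prop := ∀ (T V B : Finset ℕ) (l : List ℕ), l.Nodup → (∀ p ∈ l, 0 < p) → ∀ ρ : ℕ → ℕ,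
  (∀ n : ℕ, EE l (fun σ => if Ok T V B l n σ then 1 else 0) ρ = A1 T V B l ∅) ∧
  ∀ n' D : ℕ, EE l (fun σ => if Ok T V B l (n' + D) σ ∧ Ok T V B l n' σ then 1 else 0) ρ = J T V B ∅ D l ∅ ∅

open Classical in
/-- **LR-CHB** (80 lines). Chebyshev's inequality. `EE l` is a positive linear functional with `EE l 1 = 1` (`EE_mono`, `EE_congr`, `EE_add`, `EE_mul_const`, `EE_const` in `RS.A`, `RS.C`).
Proof. Let `Z = ∑_{s < N} 1[f s]`; `1[no f s] ≤ (Z / (N r) - 1)²`, and `EE Z = N r`, `EE Z² = N r + 2 ∑_{s} ∑_{s' < s} EE 1[f s ∧ f s'] ≤ N r + N² r² (1 + η)`. -/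
def S_CHB : Prop := ∀ (l : List ℕ), (∀ p ∈ l, 0 < p) → ∀ (ρ : ℕ → ℕ) (N : ℕ) (f : ℕ → (ℕ → ℕ) → Prop) (r η : ℝ), 0 < r → 1 ≤ N →
  (∀ s < N, EE l (fun σ => if f s σ then 1 else 0) ρ = r) →
  2 * ∑ s ∈ range N, ∑ s' ∈ range s, EE l (fun σ => if f s σ ∧ f s' σ then 1 else 0) ρ ≤ (N : ℝ) ^ 2 * r ^ 2 * (1 + η) →
  EE l (fun σ => if ∀ s < N, ¬ f s σ then 1 else 0) ρ ≤ η + 1 / (N * r)

open Classical in
/-- **LR-MAS** (120 lines). The mass of the removing primes. Proof. `∑_{p ∈ Bs} 1/p ≥ log log Y2 - log log ww - C = (1 - ε/4) log L + log 2 - log (log ww) - C`, which tends to infinity (`log ww ≤ 41 log L`), by the theorem of Mertens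
(`V5helper42.RS.W`: `H305R2.mertens_three`, `W_upper`, `W_tendsto`: `∏_{w < p ≤ Y} (1 - 1/p)⁻¹ ≥ c log Y / log w`, `(1 - 1/p)⁻¹ ≤ exp (1/p + 2/p²)`). The `Col` primes: `Col H D p` implies `p ∣ D + s - s'`, `s, s' ≤ H`,
a positive integer `≤ 2 X` among `2 H + 1` ones with at most `log₂ (2X)` prime divisors each, each term `≤ 1/ww`: their mass is `≤ (2H+1)(2 L + 2)/L^40 ≤ 1`. Here also the second part: `W (Y2) ≤ log X` and the mass in the form used for RHO: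
`exp (-∑_{p ∈ Bs} 1/p) ≤ L ^ (-(1 - ε/3))`. -/
def S_MAS : Prop := ∀ ε : ℝ, 0 < ε → ε ≤ 1 → ∃ X₀ : ℕ, ∀ X : ℕ, X₀ ≤ X → ∀ H D : ℕ, (H : ℝ) ≤ Real.log X ^ (2 - ε) →
  H < D → D ≤ X → 5 ≤ mass (Bs ε X) H D (QQ X).toList ∧
    Real.exp (-∑ p ∈ Bs ε X, 1 / (p : ℝ)) ≤ Real.log X ^ (-(1 - ε / 3)) ∧ W (Y2 ε X) ≤ Real.log X ∧
    Bs ε X ⊆ QQ X ∧ 8 * (H + 1) ≤ ww X

/-- **LR-RHO** (150 lines, uses INS1, MAS). The probability of one interval.
Proof. Let `l = (QQ X).toList`, `L = log X`. Use INS1 `#V` times (insert the elements of `V` one after another; `A1` with `V ⊆ K` is `A1 l V`...): `A1 l ∅ ≥ φ ^ #V * A1 l V`,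
`φ = 1 - exp (#V / ww - ∑_{p ∈ Bs} 1/p) ≥ 1 - 2 L^{-(1 - ε/3)} ≥ exp (-4 L^{-(1-ε/3)})`, so `φ ^ #V ≥ exp (-4 (L^{2-ε} + 1) L^{-1+ε/3}) ≥ exp (-L^{1 - ε/2}/2)`. `A1 l V = ∏_{p ∈ l} (#{x < p : av T p x}/p) ≥ ∏_{p ∈ QQ} (1 - #T/p)`
(induction; the cover condition holds always) `≥ exp (-2 #T ∑_{p ∈ QQ} 1/p)` (`#T/p ≤ 1/2`) and `∑_{p ≤ 3X} 1/p ≤ 1 + log log ...`; crude: by Mertens (`W (3X) ≤ C log (3X)`, `∑ 1/p ≤ log W`) it is `≤ 2 log L` for large `X`,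
so this is `≥ exp (-4 L^{1/50} log L) ≥ exp (-L^{1/10})`. -/
def S_RHO : Prop := ∀ ε : ℝ, 0 < ε → ε ≤ 1 → ∃ X₀ : ℕ, ∀ X : ℕ, X₀ ≤ X → ∀ (H : ℕ) (T V : Finset ℕ),
  (H : ℝ) ≤ Real.log X ^ (2 - ε) → T ⊆ range (H + 1) → V ⊆ range (H + 1) → Disjoint T V → (T.card : ℝ) ≤ Real.log X ^ (1 / 50 : ℝ) →
  Real.exp (-Real.log X ^ (1 - ε / 3)) ≤ A1 T V (Bs ε X) (QQ X).toList ∅

open Classical in
/-- **LR-FIX** (150 lines, uses EEJ, CHB, MAS, RHO, JNT, AVG). One of the intervals `n₀ + Q s + [0, H]`, `s < N`, is good, up to a small probability.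
Proof. CHB with `f s = Ok T V Bs l (n₀ + Q s)`, `r = A1 l ∅ ≥ exp (-L^{1-ε/3})` (RHO). For `s' < s` the pair is `J ∅ (Q (s - s')) l ∅ ∅` (EEJ, `n' = n₀ + Q s'`), `≤ ∏ (1 + cc) r²` by JNT
(`Reg` holds with `w = ww X`; `2 #T ≤ z1 < p` for large `X`; the list product is the product over `QQ X`). For fixed `s` sum over `s' < s`, `δ = s - s' - 1`, by AVG: `≤ (s + N L^{-1/2}) r²`; sum over `s < N`:
`2 ∑∑ ≤ (N² + 2 N² L^{-1/2}) r²`. So `η = 2 L^{-1/2}`, and `1/(N r) ≤ X^{-1/4} exp (L^{1-ε/3}) ≤ L^{-1/2}`. -/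
def S_FIX : Prop := ∀ ε : ℝ, 0 < ε → ε ≤ 1 → ∃ X₀ : ℕ, ∀ X : ℕ, X₀ ≤ X → ∀ (H : ℕ) (T : Finset ℕ),
  (H : ℝ) ≤ Real.log X ^ (2 - ε) → T ⊆ range (H + 1) → (T.card : ℝ) ≤ Real.log X ^ (1 / 50 : ℝ) →
  ∀ Q N : ℕ, H < Q → (∀ p ∈ QQ X, ¬ p ∣ Q) → (X : ℝ) ^ (1 / 4 : ℝ) ≤ N → Q * N ≤ X → ∀ (n₀ : ℕ) (ρ : ℕ → ℕ),
  EE (QQ X).toList (fun σ => if ∀ s < N, ¬ Ok T (range (H + 1) \ T) (Bs ε X) (QQ X).toList (n₀ + Q * s) σ then 1 else 0) ρ ≤
    3 * Real.log X ^ (-(1 / 2) : ℝ)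

/-- **LR-PAT** (100 lines, uses MAS only for `W (Y2) ≤ log X`). Good intervals have the exact pattern `T` in the model.
Proof. Let `m = n + j`, `j ≤ H`; `X < m ≤ 3 X`. A prime `p` with `W p ≤ log m` is `< 3X`: `W p ≥ log (p + 1)` (the product of `(1 - 1/q)⁻¹` over the primes `q ≤ p` is at least `∑_{i ≤ p} 1/i`; or: for large `X` from Mertens, `W (3X) ~ e^γ log (3X) > log (3X)`,
`e^γ > 1`, `V5helper42.RS.W`, and `W` is monotone). `ρ p < p`, so `m ≡ ρ p [MOD p]` iff `m % p = ρ p`. If `j ∈ T`: for `p ≤ z1` the hypothesis, for `p ∈ QQ` the first part of `Ok`. If `j ∉ T`: by `Ok` there is `p ∈ Bs`, `m % p = ρ p`, and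
`W p ≤ W (Y2) ≤ log X ≤ log m`. -/
def S_PAT : Prop := ∀ ε : ℝ, 0 < ε → ε ≤ 1 → ∃ X₀ : ℕ, ∀ X : ℕ, X₀ ≤ X → ∀ (H : ℕ) (T : Finset ℕ),
  (H : ℝ) ≤ Real.log X ^ (2 - ε) → T ⊆ range (H + 1) → ∀ ρ : ℕ → ℕ, (∀ p : ℕ, p.Prime → ρ p < p) →
  ∀ n : ℕ, X < n → n ≤ 2 * X → (∀ p : ℕ, p.Prime → p ≤ z1 X → ∀ t ∈ T, (n + t) % p ≠ ρ p) →
  Ok T (range (H + 1) \ T) (Bs ε X) (QQ X).toList n ρ → Ex (model ρ) n H T

/-- **LR-PRB** (200 lines, uses FIX, PAT). Every admissible pattern of diameter `≤ (log X)^(2-ε)` with few elements is an exact block of the model in `(X, 3X]`, with high probability.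
Proof. Let `P = ∏_{p ≤ z1} p ≤ 4^{z1} ≤ X^{0.35}` (`primorial_le_4_pow`), `Q = P 2^i` with `H < 2^i ≤ 2 (H + 1)`, `N = X / (2 Q)` (so `N ≥ X^{1/4}`, `Q N ≤ X/2`). No prime of `QQ X` divides `Q` (they are odd and `> z1`). Let `b p` be a class modulo `p` which contains no element of `T`.
For classes `ρ` there is by the Chinese remainder theorem `n₀ = n₀(ρ) ∈ (X, X + P]` with `n₀ + b p ≡ ρ p` modulo `p` for all primes `p ≤ z1`; it depends only on the classes of the small primes. Then `(n₀ + Q s + t) % p ≠ ρ p` for all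
`t ∈ T`, `s`, `p ≤ z1`. Let `Bad ρ`: for all `s < N` not `Ok ... (n₀(ρ) + Q s) ρ`. By FIX and `EE_append`, `EE_congr` `EE (small ++ (QQ X).toList) 1[Bad] ≤ 3 L^{-1/2}`, so by `V5helper42.RS.prob_le` the probability of `Bad` is `≤ 3 L^{-1/2}`.
Outside `Bad` PAT gives `n` (almost surely `a p < p` for all primes, `V5helper42.RS.ae_lt`). -/
def S_PRB : Prop := ∀ ε : ℝ, 0 < ε → ε ≤ 1 → ∃ X₀ : ℕ, ∀ X : ℕ, X₀ ≤ X → ∀ (H : ℕ) (T : Finset ℕ),
  (H : ℝ) ≤ Real.log X ^ (2 - ε) → T ⊆ range (H + 1) → (T.card : ℝ) ≤ Real.log X ^ (1 / 50 : ℝ) →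
  (∀ p : ℕ, p.Prime → ∃ b < p, ∀ t ∈ T, t % p ≠ b) →
  ∀ {Ω : Type*} [MeasurableSpace Ω] (μ : Measure Ω) [IsProbabilityMeasure μ] (a : ℕ → Ω → ℕ), (∀ p, Measurable (a p)) → iIndepFun a μ →
    (∀ p : ℕ, p.Prime → ∀ r < p, μ {ω | a p ω = r} = (p : ℝ≥0∞)⁻¹) →
    μ {ω | ¬ ∃ n : ℕ, X < n ∧ n ≤ 2 * X ∧ Ex (model fun p => a p ω) n H T} ≤ ENNReal.ofReal (3 * Real.log X ^ (-(1 / 2) : ℝ))

/-- **LR-LOW** (200 lines, uses PRB). The long runs exist. Proof. It is enough to treat `ε = 1/i`. `X_j = 2^(j^4)`, `k = ⌊(2 - ε) log log X_j⌋`, `d = ∏_{p ≤ k} p = exp (θ(k)) ≤ exp ((1 + ε/8) k)` (prime number theorem: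
`Pool.Agent.Cov.PNT.theta_div_tendsto : Chebyshev.theta x / x → 1`), `H = (k - 1) d ≤ (log X_j)^(2 - ε/2)`, `T = {i d : i < k}`; `T` is admissible: for `p ≤ k` all `t % p = 0`, take `b = 1`; for `p > k` the `k` elements miss a class. PRB with `ε/2`:
the failures have probability `≤ 3 (log X_j)^{-1/2} ≤ 4/j²`, summable; Borel-Cantelli (`measure_limsup_atTop_eq_zero` or `MeasureTheory.ae_eventually_notMem`). `Ex` with this `T` gives `Run (model) k n d`, and `n + (k - 1) d ≤ 3 X_j`. For real `x` take the largest `j` with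
`3 X_j ≤ x`: `log log x ≤ log log (3 X_{j+1})`, and `log log (3 X_{j+1}) / log log X_j → 1`; so `k ≥ (2 - 2ε) log log x`. (If `j ↦` runs of length `k ≥ 2` are needed only for large `x`, fine.) -/
def S_LOW : Prop := ∀ {Ω : Type*} [MeasurableSpace Ω] (μ : Measure Ω) [IsProbabilityMeasure μ] (a : ℕ → Ω → ℕ), (∀ p, Measurable (a p)) →
  iIndepFun a μ → (∀ p : ℕ, p.Prime → ∀ r < p, μ {ω | a p ω = r} = (p : ℝ≥0∞)⁻¹) →
  ∀ᵐ ω ∂μ, ∀ ε : ℝ, 0 < ε → ∀ᶠ x : ℝ in atTop, ∃ k n d : ℕ, (2 - ε) * Real.log (Real.log x) ≤ k ∧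
    Run (model fun p => a p ω) k n d ∧ ((n + (k - 1) * d : ℕ) : ℝ) ≤ x

/-! ### the upper bound -/

open Classical in
/-- **LR-LS** (200 lines, for those who know the linear sieve of the library: `Y882/JR`, `W366/DC`, `Y445/JRB`; used by helper51 in `V5helper51.SU`). The linear sieve: an interval of length `y`, with one ARBITRARY class removed for
every prime `p ≤ y^(1/2 - η)`, contains at least `c y / log y` elements. Proof. By the Chinese remainder theorem one may shift the interval so that all classes are the class `0` (`V5helper42.RS.card_shift` is similar), or one uses a sieve for a general weighted set: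
`X = y`, density `1/p`, `|r_d| ≤ 1`, level `D = y^(1-η)`, `z = y^(1/2-η)`, `s = log D / log z > 2`, `f(s) > 0`. -/
def S_LS : Prop := ∀ η : ℝ, 0 < η → η < 1 / 2 → ∃ c : ℝ, 0 < c ∧ ∃ y₀ : ℕ, ∀ y : ℕ, y₀ ≤ y → ∀ (m : ℕ) (ρ : ℕ → ℕ),
  c * y / Real.log y ≤ (((Ioc m (m + y)).filter (fun n : ℕ => ∀ p : ℕ, p.Prime → (p : ℝ) ≤ (y : ℝ) ^ (1 / 2 - η) → n % p ≠ ρ p)).card : ℝ)

open Classical in
/-- **LR-EMP** (60 lines). The probability that a set of integers in an interval is removed completely by primes which are larger than the interval is at most what it would be for independent elements.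
Proof. By induction on `l`, for all `A`, the more general `EE l ((1 - u) ^ #(S ρ l A)) ≤ (1 - u PP l) ^ #A`, `0 ≤ u ≤ 1` (`0 ^ 0 = 1`). Step: the class `r` of `p` removes at most one element of `A` (`p > y`), and each element is removed for exactly one `r < p`; so with
`A' = A.filter (n % p ≠ r)`, `q = PP l`: `EE (p :: l) ≤ (1/p) ∑_r (1 - u q)^#A' = ((1 - v)^a (p - a) + a (1 - v)^(a-1))/p`, `a = #A`, `v = u q` (`a ≤ p`), and this is `≤ (1 - v (1 - 1/p))^a = ((1 - v) + v/p)^a` by Bernoulli's inequality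
(`(s + t)^a ≥ s^a + a s^(a-1) t` for `s, t ≥ 0`). -/
def S_EMP : Prop := ∀ (m y : ℕ) (l : List ℕ), l.Nodup → (∀ p ∈ l, y < p) → ∀ (A : Finset ℕ), A ⊆ Ioc m (m + y) → ∀ ρ : ℕ → ℕ,
  EE l (fun σ => if S σ l A = ∅ then 1 else 0) ρ ≤ (1 - PP l) ^ A.card

/-- **LR-GAPP** (250 lines, uses LS, EMP). An interval of length `(log m)^(2+ε)` is rarely free of elements of the model.
Proof. Let `L = log m`, `y = ⌊L^(2+ε)⌋`, `η = ε/40` (so that `y^(1/2-η) ≥ L^(1+ε/4)`), `ε ≤ 1`. Primes: `l₁ = {p ≤ y^(1/2-η)}`, `l₂ = {y^(1/2-η) < p ≤ y}`, `l₃ = {p > y : W p ≤ log (m + y)}`. For all classes of `l₁` the set `S₁` of the survivors has `≥ c y/log y` elements (LS).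
`l₂`: `V5helper42.RS.ee_exp` with `α = -1/(200 y^(1/2+η))`: `2|α|(y/p + 1) ≤ 1`, `SS y l₂ ≤ y ∑_{p > y^(1/2-η)} 1/p² + ∑_{p ≤ y} 1/p ≤ 3 y^(1/2+η)`, `PP l₂ ≥ 1/4` (Mertens: `→ 1 - 2η`), so `EE exp (α #S₂) ≤ exp (α #S₁ (1/4 - 4 · 3/200)) ≤ exp (α #S₁/8)`, and
`P(#S₂ ≤ #S₁/16) ≤ exp (-|α| #S₁/16) ≤ exp (-c' y^(1/2-η)/log y) ≤ exp (-3L)`. `l₃`: `PP l₃ ≥ ∏_{W p ≤ log (m+y)} (1 - 1/p) ≥ 1/log (m + y) ≥ 1/(2L)` (`V_TT_ge`), so by EMP the probability that `S₂` is removed completely is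
`≤ exp (-#S₂/(2L)) ≤ exp (-c y/(32 L log y)) ≤ exp (-3 L)` if `#S₂ ≥ #S₁/16`. Together `≤ 2 m^{-3} ≤ m^{-2}`. An element of `(m, m + y]` which is in none of the classes of the primes `W p ≤ log (m + y)` is in the model (`V5helper42.RS.sandwich`). Transfer to `μ` with
`V5helper42.RS.prob_le` and `ae_lt` (see `prob_T`, `prob_Bad` in `RS.D`, `RS.E` for the same pattern). -/
def S_GAPP : Prop := ∀ ε : ℝ, 0 < ε → ε ≤ 1 → ∀ᶠ m : ℕ in atTop,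
  ∀ {Ω : Type*} [MeasurableSpace Ω] (μ : Measure Ω) [IsProbabilityMeasure μ] (a : ℕ → Ω → ℕ), (∀ p, Measurable (a p)) → iIndepFun a μ →
    (∀ p : ℕ, p.Prime → ∀ r < p, μ {ω | a p ω = r} = (p : ℝ≥0∞)⁻¹) →
    μ {ω | ∀ n : ℕ, m < n → (n : ℝ) ≤ m + Real.log m ^ (2 + ε) → n ∉ model fun p => a p ω} ≤ ENNReal.ofReal (1 / (m : ℝ) ^ 2)

/-- **LR-GAP** (60 lines, uses GAPP). Borel-Cantelli. (`ε = 1/i`; for `ε > 1` use `ε = 1`.) -/
def S_GAP : Prop := ∀ {Ω : Type*} [MeasurableSpace Ω] (μ : Measure Ω) [IsProbabilityMeasure μ] (a : ℕ → Ω → ℕ), (∀ p, Measurable (a p)) →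
  iIndepFun a μ → (∀ p : ℕ, p.Prime → ∀ r < p, μ {ω | a p ω = r} = (p : ℝ≥0∞)⁻¹) →
  ∀ᵐ ω ∂μ, ∀ ε : ℝ, 0 < ε → ∀ᶠ m : ℕ in atTop, ∃ n : ℕ, m < n ∧ (n : ℝ) ≤ m + Real.log m ^ (2 + ε) ∧ n ∈ model fun p => a p ω

/-- **LR-RUNU** (250 lines). Runs are short. A deterministic statement.
Proof. Let `Run k n d`, `n + (k - 1) d ≤ x`, `k ≥ 2` (for `k ≤ 1` nothing is to be shown if `x` is large). (a) `d ≤ (log x)^(2 + ε/8) + M`, `M` a constant (depending on `ρ`, `ε`): if `n ≥ m₀` the gap hypothesis gives an element of the model in `(n, n + (log n)^(2+ε/8)]`; it is `> n`, so, if it is smaller than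
`n + d`, this contradicts the definition of a run (`k ≥ 2`; `n < m < n + d` is no `n + i d`). If `n < m₀` then apply it at `m₀`: there is an element `> n` which is `≤ m₀ + (log m₀)^(2+ε/8) =: M`. (b) Let `K = (1 - ε/8) k`. For large `k` all primes `p ≤ K` divide `d`:
first, let `p ≤ √k` and suppose `p ∤ d`; the terms `n + i d`, `k/2 ≤ i < k/2 + p`, cover all classes modulo `p`, so one of them, `m`, is `≡ ρ p`, but `m ≥ k/2`, `W p ≤ C log √k ≤`: here one needs `W p ≤ log (k/2)`: `W (√k) ~ (e^γ/2) log k` and `e^γ/2 = 0.89 < 1`, which is true but to avoid the value of the constant `e^γ` use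
`p ≤ k^κ` with a small `κ > 0`, `C κ ≤ 1/2` (`W n ≤ C log n`, `V5helper42.RS.W_upper`): contradiction to `m ∈ model`. So `d ≥ ∏_{p ≤ k^κ} p ≥ exp (k^κ/2)` (prime number theorem, or Chebyshev). Then the terms with `i ≥ εk/16` are `≥ exp (k^κ/2)`, all primes `p ≤ K` are active there (`W p ≤ C log k ≤ k^κ/2`), and as there are at
least `(1 - ε/16) k - 1 ≥ p` such terms, `p ∣ d` as before. (c) So `exp ((1 - ε/8) K) ≤ exp (θ(K)) ≤ d ≤ (log x)^(2+ε/8) + M` (prime number theorem: `Pool.Agent.Cov.PNT.theta_div_tendsto`), `k ≤ (2 + ε) log log x` for large `x`; bounded `k` are trivial. -/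
def S_RUNU : Prop := ∀ ρ : ℕ → ℕ, (∀ p : ℕ, p.Prime → ρ p < p) →
  (∀ ε : ℝ, 0 < ε → ∀ᶠ m : ℕ in atTop, ∃ n : ℕ, m < n ∧ (n : ℝ) ≤ m + Real.log m ^ (2 + ε) ∧ n ∈ model ρ) →
  ∀ ε : ℝ, 0 < ε → ∀ᶠ x : ℝ in atTop, ∀ k n d : ℕ, Run (model ρ) k n d → ((n + (k - 1) * d : ℕ) : ℝ) ≤ x →
    (k : ℝ) ≤ (2 + ε) * Real.log (Real.log x)

end Pool.Agent.V5helper49.LR
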