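import Pool.Agent.V5helper49.LR.Stm2

/-!
# Project LR, part 3: universality

Almost surely, for all large `x`, EVERY admissible `T ⊆ [0, H]`, `H ≤ (log x)^(2-ε)`, `#T ≤ (log x)^(ε/10)`, is the exact pattern of the
model in `[n, n + H]` for some `x < n ≤ 4 x`. The proof is the one of part 2, with one change: the primes up to `yy = exp ((log X)^(ε/4))` are
treated with a sieve (Brun's pure sieve), for ARBITRARY classes; only the primes above `yy` are random, and for these the correlation of ANY two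
intervals is `≤ exp (-(log X)^(ε/4)/2)`. So the probability of a failure is `≤ exp (-(log X)^(ε/4)/3)`, which is smaller than the inverse of the number
of all patterns.
-/

set_option autoImplicit false

namespace Pool.Agent.V5helper49.LR

open Finset MeasureTheory ProbabilityTheory Filter
open scoped ENNReal
open Pool.Agent.V5helper42.RS (EE S PP W model)

/-- `exp ((log X) ^ (ε / 4))` -/
noncomputable def yy (ε : ℝ) (X : ℕ) : ℕ := ⌊Real.exp (Real.log X ^ (ε / 4))⌋₊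

/-- the primes used to remove the places in `V` -/
noncomputable def B2 (ε : ℝ) (X : ℕ) : Finset ℕ := (Ioc (yy ε X) (Y2 ε X)).filter Nat.Prime

/-- the primes whose classes are used as random ones -/
noncomputable def Q2 (ε : ℝ) (X : ℕ) : Finset ℕ := (Ioc (yy ε X) (3 * X)).filter Nat.Prime

open Classical in
/-- **LR-MAS2** (100 lines; adaptation of `V5helper31.LR.MAS`, first choice helper31). The mass of the removing primes.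
Proof. `∑_{p ∈ B2} 1/p ≥ log (log Y2 / log yy) - C / log yy = (1 - ε/2) log L + log 2 - o(1)` (Mertens, as in MAS), so `exp (-∑) ≤ L^{-(1 - 3ε/5)}`, and the mass tends to infinity. The `Col` primes: their mass
is `≤ (2H+1)(2L+2)/yy ≤ 1`, as in MAS. `W (Y2) ≤ log X` is in MAS. -/
def S_MAS2 : Prop := ∀ ε : ℝ, 0 < ε → ε ≤ 1 → ∃ X₀ : ℕ, ∀ X : ℕ, X₀ ≤ X → ∀ H D : ℕ, (H : ℝ) ≤ Real.log X ^ (2 - ε) →
  H < D → D ≤ X → 5 ≤ mass (B2 ε X) H D (Q2 ε X).toList ∧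
    Real.exp (-∑ p ∈ B2 ε X, 1 / (p : ℝ)) ≤ Real.log X ^ (-(1 - 3 * ε / 5)) ∧ W (Y2 ε X) ≤ Real.log X ∧
    B2 ε X ⊆ Q2 ε X ∧ 8 * (H + 1) ≤ yy ε X

open Classical in
/-- **LR-RHO2** (120 lines, uses INS1, MAS2; adaptation of `V5helper6.LR.RHO`, first choice helper6). The probability of one interval.
Proof. As RHO: `φ = 1 - exp (#V / yy - ∑_{p ∈ B2} 1/p) ≥ 1 - 2 L^{-(1 - 3ε/5)}`, `φ ^ #V ≥ exp (-4 (L^{2-ε} + 1) L^{-1+3ε/5}) ≥ exp (-L^{1-ε/3}/2)` (`1 - 2ε/5 < 1 - ε/3`), and the factor of the places in `T` is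
`≥ exp (-2 #T ∑_{p ≤ 3X} 1/p) ≥ exp (-4 L^{ε/8} log L) ≥ exp (-L^{1-ε/3}/2)`. -/
def S_RHO2 : Prop := ∀ ε : ℝ, 0 < ε → ε ≤ 1 → ∃ X₀ : ℕ, ∀ X : ℕ, X₀ ≤ X → ∀ (H : ℕ) (T V : Finset ℕ),
  (H : ℝ) ≤ Real.log X ^ (2 - ε) → T ⊆ range (H + 1) → V ⊆ range (H + 1) → Disjoint T V → (T.card : ℝ) ≤ Real.log X ^ (ε / 8) →
  Real.exp (-Real.log X ^ (1 - ε / 3)) ≤ A1 T V (B2 ε X) (Q2 ε X).toList ∅

/-- **LR-COR** (100 lines; the factors `P₁`, `P₂` of AVG, `V5helper74.LRA`, first choice helper74). The correlation of ANY two intervals, for the primes `> yy`.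
Proof. `∏ (1 + cc) ≤ exp (∑ cc)`. `∑_{p ∈ B2} 8 (H+1)²/p² ≤ 8 (H+1)²/yy`. `Col H D p` implies `p ∣ D + s - s'` for some `s, s' ≤ H`, one of `2H + 1` positive integers `≤ 2X`, each with at most
`log₂ (2X) ≤ 2L + 2` prime divisors: `∑ 32 (H+1)/p ≤ 32 (H+1)(2H+1)(2L+2)/yy`. `ov T D p ≤ #{(t, t') ∈ T² : p ∣ D + t - t'}`: `∑ 4 ov/p ≤ 4 (H+1)² (2L+2)/yy`. The sum is `≤ L^7/yy ≤ exp (-L^{ε/4}/2)/2` for large `X`
(`H ≤ L²`, `yy ≥ exp (L^{ε/4})/2`), and `exp s ≤ 1 + 2 s` for `0 ≤ s ≤ 1`. -/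
def S_COR : Prop := ∀ ε : ℝ, 0 < ε → ε ≤ 1 → ∃ X₀ : ℕ, ∀ X : ℕ, X₀ ≤ X → ∀ (H : ℕ) (T : Finset ℕ),
  (H : ℝ) ≤ Real.log X ^ (2 - ε) → T ⊆ range (H + 1) → ∀ D : ℕ, H < D → D ≤ X →
  ∏ p ∈ Q2 ε X, (1 + cc T (B2 ε X) H D p) ≤ 1 + Real.exp (-(Real.log X ^ (ε / 4) / 2))

/-- **LR-BON** (60 lines, Mathlib only). Bonferroni's inequality, for a count and for a product.
Proof. First part: with `ω = #{p ∈ P : E p}` the sum is `∑_{j ≤ r} (-1)^j C(ω, j)` (`Finset.card_powersetCard`, the subsets `J` of `P` of size `j` with `E` on all of `J` are the subsets of `P.filter E`), which is `1` for `ω = 0` and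
`(-1)^r C(ω - 1, r) ≤ 0` for `ω ≥ 1` (`Int.alternating_sum_range_choose_of_ne`-like lemmas; or induction on `r`, Pascal), as `r` is odd. Second part: induction on `P`, or: `∑_{j ≤ r} (-1)^j e_j ≥ ∏ (1 - g p) - e_{r+1}` for odd `r`,
and `≤ ∏ (1 - g p) + e_{r+1}` for even `r`, both by induction on `P` (`e_j (insert p P) = e_j P + g p e_{j-1} P`, `∏` gets the factor `1 - g p`; the claim for `(r, insert p P)` is the claim for `(r, P)` plus `-g p` times the claim for `(r - 1, P)`). -/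
def S_BON : Prop := ∀ (P : Finset ℕ) (r : ℕ), Odd r →
  (∀ E : ℕ → Prop, ∀ [DecidablePred E], ∑ j ∈ range (r + 1), (-1 : ℝ) ^ j * ∑ K ∈ P.powersetCard j, (if ∀ p ∈ K, E p then 1 else 0) ≤ (if ∀ p ∈ P, ¬ E p then 1 else 0)) ∧
  ∀ g : ℕ → ℝ, (∀ p ∈ P, 0 ≤ g p ∧ g p ≤ 1) →
    ∏ p ∈ P, (1 - g p) - (∑ p ∈ P, g p) ^ (r + 1) / (r + 1).factorial ≤ ∑ j ∈ range (r + 1), (-1 : ℝ) ^ j * ∑ K ∈ P.powersetCard j, ∏ p ∈ K, g p

open Classical in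
/-- **LR-CNT** (120 lines, Mathlib only). Counting by the Chinese remainder theorem.
Proof. For fixed classes `c p` (`p ∈ K`) the number of the `s < N` with `s ≡ c p [MOD p]` for all `p ∈ K` is `N / ∏ p + θ`, `|θ| ≤ 1` (`Nat.count_modEq_card` or `Int.Ioc_filter_modEq_card`, Chinese remainder theorem for `K`, by induction on `K` or
`Nat.chineseRemainderOfFinset`). The set in the claim is the disjoint union of these sets over `c ∈ ∏ C p` (`Finset.pi`, or induction on `K`), `C p ⊆ range p`. -/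
def S_CNT : Prop := ∀ (K : Finset ℕ), (∀ p ∈ K, p.Prime) → ∀ (C : ℕ → Finset ℕ), (∀ p ∈ K, C p ⊆ range p) → ∀ N : ℕ,
  |(((range N).filter (fun s => ∀ p ∈ K, s % p ∈ C p)).card : ℝ) - N * ∏ p ∈ K, ((C p).card : ℝ) / p| ≤ ∏ p ∈ K, ((C p).card : ℝ)

open Classical in
/-- **LR-BRN** (200 lines, uses BON, CNT). Brun's pure sieve with many classes.
Proof. Let `k = #T`, `P` the primes in `(z1, yy]`, `C p ⊆ range p` the set of the `s < p` with `(n₀ + Q s + t) % p = ρ p` for some `t ∈ T`; `#C p ≤ k` since `Q` is invertible modulo `p`, and `s % p ∈ C p` iff some `t ∈ T` has `(n₀ + Q s + t) % p = ρ p`.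
Let `g p = #C p / p ≤ k / z1 ≤ 1/2`, `κ = ∑_{p ∈ P} g p ≤ k (1 + log yy) ≤ 2 L^{3ε/8}` (`∑_{n ≤ y} 1/n ≤ 1 + log y`), `r` odd, `40 L^{3ε/8} ≤ r ≤ 50 L^{3ε/8}`. By BON (first part, `E p : s % p ∈ C p`, summed over `s < N`), CNT and BON (second part) the number of survivors is
`≥ N (∏ (1 - g p) - κ^(r+1)/(r+1)!) - ∑_{j ≤ r} ∑_{#K = j} ∏_{p ∈ K} #C p`. Here `∏ (1 - g p) ≥ exp (-2 κ) ≥ exp (-4 L^{3ε/8})` (`1 - g ≥ exp (-2 g)` for `0 ≤ g ≤ 1/2`), `κ^(r+1)/(r+1)! ≤ (e κ/(r+1))^(r+1) ≤ (e/20)^(r+1) ≤ exp (-(r+1)) ≤ exp (-40 L^{3ε/8}) ≤ exp (-4 L^{3ε/8})/2`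
(`(n/e)^n ≤ n!`, from `Real.exp n ≥ n^n/n!`), and the last sum is `≤ ∑_{j ≤ r} (k yy)^j ≤ (r + 1) (k yy + 1)^r ≤ exp (200 L^{5ε/8}) ≤ X^{1/100}`. So the number is `≥ X^{1/4} exp (-4 L^{3/8})/2 - X^{1/100} ≥ X^{1/5}`. (If `k = 0` everything survives; the same proof works.) -/
def S_BRN : Prop := ∀ ε : ℝ, 0 < ε → ε ≤ 1 → ∃ X₀ : ℕ, ∀ X : ℕ, X₀ ≤ X → ∀ T : Finset ℕ, (T.card : ℝ) ≤ Real.log X ^ (ε / 8) →
  ∀ Q N : ℕ, (∀ p : ℕ, p.Prime → z1 X < p → ¬ p ∣ Q) → (X : ℝ) ^ (1 / 4 : ℝ) ≤ N → ∀ (n₀ : ℕ) (ρ : ℕ → ℕ),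
  (X : ℝ) ^ (1 / 5 : ℝ) ≤ (((range N).filter (fun s => ∀ p : ℕ, p.Prime → z1 X < p → p ≤ yy ε X → ∀ t ∈ T, (n₀ + Q * s + t) % p ≠ ρ p)).card : ℝ)

open Classical in
/-- **LR-FIX2** (120 lines, uses EEJ, CHB, MAS2, RHO2, JNT, COR; adaptation of `V5helper34.LR.FIX`, first choice helper34). One of the intervals `n + [0, H]`, `n ∈ A`, is good, up to a very small probability.
Proof. Enumerate `A` increasingly: `n 0 < ... < n (N - 1)` (`Finset.orderEmbOfFin`, extended by anything). CHB with `f s = Ok T V B2 l (n s)`, `l = (Q2 ε X).toList`, `r = A1 l ∅ ≥ exp (-L^{1-ε/3})` (RHO2). For `s' < s` the pair is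
`J ∅ D l ∅ ∅`, `D = n s - n s'` (EEJ), `≤ ∏ (1 + cc) r² ≤ (1 + exp (-L^{ε/4}/2)) r²` by JNT (`Reg` with `w = yy ε X`; `2 #T ≤ yy < p` for large `X`) and COR. So `2 ∑∑ ≤ N² r² (1 + η)`, `η = exp (-L^{ε/4}/2)`, and
`1/(N r) ≤ X^{-1/5} exp (L^{1-ε/3})`. Together `≤ exp (-L^{ε/4}/3)`. -/
def S_FIX2 : Prop := ∀ ε : ℝ, 0 < ε → ε ≤ 1 → ∃ X₀ : ℕ, ∀ X : ℕ, X₀ ≤ X → ∀ (H : ℕ) (T : Finset ℕ),
  (H : ℝ) ≤ Real.log X ^ (2 - ε) → T ⊆ range (H + 1) → (T.card : ℝ) ≤ Real.log X ^ (ε / 8) →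
  ∀ A : Finset ℕ, (X : ℝ) ^ (1 / 5 : ℝ) ≤ A.card → (∀ m ∈ A, ∀ n ∈ A, m < n → H < n - m ∧ n - m ≤ X) → ∀ ρ : ℕ → ℕ,
  EE (Q2 ε X).toList (fun σ => if ∀ n ∈ A, ¬ Ok T (range (H + 1) \ T) (B2 ε X) (Q2 ε X).toList n σ then 1 else 0) ρ ≤
    Real.exp (-(Real.log X ^ (ε / 4) / 3))

open Classical in
/-- **LR-PAT2** (60 lines, uses MAS2; adaptation of `V5helper31.LR.PAT`, first choice helper31: replace `z1`, `Bs`, `QQ` by `yy`, `B2`, `Q2`). -/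
def S_PAT2 : Prop := ∀ ε : ℝ, 0 < ε → ε ≤ 1 → ∃ X₀ : ℕ, ∀ X : ℕ, X₀ ≤ X → ∀ (H : ℕ) (T : Finset ℕ),
  (H : ℝ) ≤ Real.log X ^ (2 - ε) → T ⊆ range (H + 1) → ∀ ρ : ℕ → ℕ, (∀ p : ℕ, p.Prime → ρ p < p) →
  ∀ n : ℕ, X < n → n ≤ 2 * X → (∀ p : ℕ, p.Prime → p ≤ yy ε X → ∀ t ∈ T, (n + t) % p ≠ ρ p) →
  Ok T (range (H + 1) \ T) (B2 ε X) (Q2 ε X).toList n ρ → Ex (model ρ) n H T

/-- **LR-PRB2** (150 lines, uses FIX2, PAT2, BRN; adaptation of `V5helper70.LR.PRB`, first choice helper70).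
Proof. As PRB: `P = ∏_{p ≤ z1} p ≤ X^{0.35}`, `Q = P 2^i`, `H < 2^i ≤ 2 (H+1)`, `N = X / (2 Q) ≥ X^{1/4}`, `n₀ = n₀(ρ) ∈ (X, X + P]` by the Chinese remainder theorem (admissible classes `b p`), so `(n₀ + Q s + t) % p ≠ ρ p` for all `t ∈ T`, `s`, `p ≤ z1`. Let `A(ρ)` be the set of the
`n₀ + Q s`, `s < N`, for which `(n₀ + Q s + t) % p ≠ ρ p` also for all primes `z1 < p ≤ yy` and `t ∈ T`; `#A(ρ) ≥ X^{1/5}` by BRN; it depends only on the classes of the primes `≤ yy`; two elements differ by a multiple of `Q > H` which is `≤ Q N ≤ X`; `A(ρ) ⊆ (X, 2X]`.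
Let `Bad ρ`: no `n ∈ A(ρ)` is `Ok ... (Q2).toList n ρ`. With `small` = the list of the primes `≤ yy`, FIX2 and `EE_append`: `EE (small ++ (Q2 ε X).toList) 1[Bad] ≤ exp (-L^{ε/4}/3)`; then `V5helper42.RS.prob_le` and PAT2 as in PRB. -/
def S_PRB2 : Prop := ∀ ε : ℝ, 0 < ε → ε ≤ 1 → ∃ X₀ : ℕ, ∀ X : ℕ, X₀ ≤ X → ∀ (H : ℕ) (T : Finset ℕ),
  (H : ℝ) ≤ Real.log X ^ (2 - ε) → T ⊆ range (H + 1) → (T.card : ℝ) ≤ Real.log X ^ (ε / 8) →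
  (∀ p : ℕ, p.Prime → ∃ b < p, ∀ t ∈ T, t % p ≠ b) →
  ∀ {Ω : Type*} [MeasurableSpace Ω] (μ : Measure Ω) [IsProbabilityMeasure μ] (a : ℕ → Ω → ℕ), (∀ p, Measurable (a p)) → iIndepFun a μ →
    (∀ p : ℕ, p.Prime → ∀ r < p, μ {ω | a p ω = r} = (p : ℝ≥0∞)⁻¹) →
    μ {ω | ¬ ∃ n : ℕ, X < n ∧ n ≤ 2 * X ∧ Ex (model fun p => a p ω) n H T} ≤ ENNReal.ofReal (Real.exp (-(Real.log X ^ (ε / 4) / 3)))

/-- **LR-UNI** (200 lines, uses PRB2). Universality. Proof. For every rational `ε' ∈ (0, 1]` let `X = 2^j`, `H₀ = ⌊(log X)^(2-ε')⌋`. The number of the `T ⊆ [0, H₀]` with `#T ≤ K := ⌊(log X)^(ε'/8)⌋` is `≤ (H₀ + 2)^(K+1)` or so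
(`∑_{i ≤ K} C(H₀+1, i) ≤ (K+1) (H₀+1)^K`), `≤ exp (3 (log X)^(ε'/8) log log X · 2) ≤ exp ((log X)^(ε'/4)/12)`. By PRB2 and the union bound the probability that some admissible such `T` is not an exact pattern in `[n, n + H₀]` for any `n ∈ (X, 2X]` is
`≤ exp (-(log X)^(ε'/4)/4)`, which is summable over `j` (`log X = j log 2`, `exp (-c j^(ε'/4)) ≤ 1/j²` for large `j`). Borel-Cantelli. If `T ⊆ [0, H]`, `H ≤ H₀`, then `Ex A n H₀ T → Ex A n H T`. Given real `ε ∈ (0, 1]` take a rational `ε'`, `4ε/5 ≤ ε' ≤ ε`, and for large `x` take `j` with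
`x ≤ 2^j < 2x`: `(log x)^(2-ε) ≤ (log X)^(2-ε')`, `(log x)^(ε/10) ≤ (log X)^(ε'/8)`, `x ≤ X < n ≤ 2X < 4x`. -/
def S_UNI : Prop := ∀ {Ω : Type*} [MeasurableSpace Ω] (μ : Measure Ω) [IsProbabilityMeasure μ] (a : ℕ → Ω → ℕ), (∀ p, Measurable (a p)) →
  iIndepFun a μ → (∀ p : ℕ, p.Prime → ∀ r < p, μ {ω | a p ω = r} = (p : ℝ≥0∞)⁻¹) →
  ∀ᵐ ω ∂μ, ∀ ε : ℝ, 0 < ε → ε ≤ 1 → ∀ᶠ x : ℝ in atTop, ∀ (H : ℕ) (T : Finset ℕ), (H : ℝ) ≤ Real.log x ^ (2 - ε) → T ⊆ range (H + 1) →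
    (T.card : ℝ) ≤ Real.log x ^ (ε / 10) → (∀ p : ℕ, p.Prime → ∃ b < p, ∀ t ∈ T, t % p ≠ b) →
    ∃ n : ℕ, x < n ∧ (n : ℝ) ≤ 4 * x ∧ Ex (model fun p => a p ω) n H T

end Pool.Agent.V5helper49.LR
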